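import Pool.Agent.L0h44.LC.Stm
import Pool.Agent.Helper133.BUProd

/-!
# Project LC, module BU: a Borsuk-Ulam theorem for products of copies of SU(2)
-/

set_option autoImplicit false

namespace Pool.Agent.L0h83.LC

open Finset Pool.Agent.L0h44.LC Pool.Agent.Helper133.BT Pool.Agent.Helper133.BU

/-- the Euclidean norm -/
noncomputable def nm (w : Fin 4 → ℝ) : ℝ := Real.sqrt (w 0 ^ 2 + w 1 ^ 2 + w 2 ^ 2 + w 3 ^ 2)

/-- the matrix of a normalized quaternion -/
noncomputable def mt (w : Fin 4 → ℝ) : Matrix (Fin 2) (Fin 2) ℂ :=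
  !![(((w 0 / nm w : ℝ) : ℂ) + ((w 1 / nm w : ℝ) : ℂ) * Complex.I),
      -(((w 2 / nm w : ℝ) : ℂ) - ((w 3 / nm w : ℝ) : ℂ) * Complex.I);
    (((w 2 / nm w : ℝ) : ℂ) + ((w 3 / nm w : ℝ) : ℂ) * Complex.I),
      (((w 0 / nm w : ℝ) : ℂ) - ((w 1 / nm w : ℝ) : ℂ) * Complex.I)]

theorem sq_pos {w : Fin 4 → ℝ} (hw : w ≠ 0) : 0 < w 0 ^ 2 + w 1 ^ 2 + w 2 ^ 2 + w 3 ^ 2 := by
  have h0 : 0 ≤ w 0 ^ 2 + w 1 ^ 2 + w 2 ^ 2 + w 3 ^ 2 := by positivity
  rcases h0.lt_or_eq with h | h
  · exact h
  · exfalso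
    apply hw
    have a0 := sq_nonneg (w 0)
    have a1 := sq_nonneg (w 1)
    have a2 := sq_nonneg (w 2)
    have a3 := sq_nonneg (w 3)
    have b0 : w 0 = 0 := pow_eq_zero_iff (n := 2) (by norm_num) |>.1 (by linarith)
    have b1 : w 1 = 0 := pow_eq_zero_iff (n := 2) (by norm_num) |>.1 (by linarith)
    have b2 : w 2 = 0 := pow_eq_zero_iff (n := 2) (by norm_num) |>.1 (by linarith)
    have b3 : w 3 = 0 := pow_eq_zero_iff (n := 2) (by norm_num) |>.1 (by linarith)
    ext i
    fin_cases i <;> simp [b0, b1, b2, b3]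

theorem nm_pos {w : Fin 4 → ℝ} (hw : w ≠ 0) : 0 < nm w := Real.sqrt_pos.2 (sq_pos hw)

theorem nm_sum {w : Fin 4 → ℝ} (hw : w ≠ 0) :
    (w 0 / nm w) ^ 2 + (w 1 / nm w) ^ 2 + (w 2 / nm w) ^ 2 + (w 3 / nm w) ^ 2 = 1 := by
  have h := nm_pos hw
  have h1 : nm w ^ 2 = w 0 ^ 2 + w 1 ^ 2 + w 2 ^ 2 + w 3 ^ 2 := Real.sq_sqrt (sq_pos hw).le
  field_simp
  rw [h1]

theorem quat_mem (a b c d : ℝ) (h : a ^ 2 + b ^ 2 + c ^ 2 + d ^ 2 = 1) :
    (!![((a : ℂ) + (b : ℂ) * Complex.I), -((c : ℂ) - (d : ℂ) * Complex.I);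
      ((c : ℂ) + (d : ℂ) * Complex.I), ((a : ℂ) - (b : ℂ) * Complex.I)] :
      Matrix (Fin 2) (Fin 2) ℂ) ∈ Matrix.specialUnitaryGroup (Fin 2) ℂ := by
  rw [Matrix.mem_specialUnitaryGroup_iff]
  have h' : (a : ℂ) ^ 2 + (b : ℂ) ^ 2 + (c : ℂ) ^ 2 + (d : ℂ) ^ 2 = 1 := by exact_mod_cast h
  have hI : Complex.I ^ 2 = -1 := Complex.I_sq
  constructor
  · rw [Matrix.mem_unitaryGroup_iff]
    ext i j
    fin_cases i <;> fin_cases j <;>
      simp [Matrix.mul_apply, Fin.sum_univ_two, Matrix.star_apply] <;>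
      first
      | linear_combination h' - ((b : ℂ) ^ 2 + (d : ℂ) ^ 2) * hI
      | ring
  · rw [Matrix.det_fin_two_of]
    linear_combination h' - ((b : ℂ) ^ 2 + (d : ℂ) ^ 2) * hI

theorem mt_mem {w : Fin 4 → ℝ} (hw : w ≠ 0) : mt w ∈ Matrix.specialUnitaryGroup (Fin 2) ℂ :=
  quat_mem _ _ _ _ (nm_sum hw)

open Classical in
/-- the element of SU(2) -/
noncomputable def su (w : Fin 4 → ℝ) : SU2 := if h : w ≠ 0 then ⟨mt w, mt_mem h⟩ else 1

theorem su_val {w : Fin 4 → ℝ} (hw : w ≠ 0) : (su w : Matrix (Fin 2) (Fin 2) ℂ) = mt w := by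
  unfold su
  rw [dif_pos hw]

theorem nm_neg (w : Fin 4 → ℝ) : nm (-w) = nm w := by
  unfold nm
  simp

theorem mt_neg (w : Fin 4 → ℝ) : mt (-w) = -mt w := by
  unfold mt
  rw [nm_neg]
  ext i j
  fin_cases i <;> fin_cases j <;> simp [neg_div] <;> ring

theorem su_neg {z : SU2} (hz : (z : Matrix (Fin 2) (Fin 2) ℂ) = -1) {w : Fin 4 → ℝ} (hw : w ≠ 0) :
    su (-w) = z * su w := by
  apply Subtype.ext
  rw [su_val (neg_ne_zero.2 hw), mt_neg]
  show _ = (z : Matrix (Fin 2) (Fin 2) ℂ) * (su w : Matrix (Fin 2) (Fin 2) ℂ)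
  rw [hz, su_val hw, neg_mul, one_mul]

theorem nm_cont : Continuous nm := by
  unfold nm
  fun_prop

theorem mt_cont : ContinuousOn mt {w | w ≠ 0} := by
  have hq : ∀ i : Fin 4, ContinuousOn (fun w : Fin 4 → ℝ => ((w i / nm w : ℝ) : ℂ)) {w | w ≠ 0} := by
    intro i
    apply Complex.continuous_ofReal.comp_continuousOn
    exact (continuous_apply i).continuousOn.div nm_cont.continuousOn fun w hw => (nm_pos hw).ne'
  have h : ∀ i j : Fin 2, ContinuousOn (fun w => mt w i j) {w : Fin 4 → ℝ | w ≠ 0} := by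
    intro i j
    fin_cases i <;> fin_cases j
    · exact (hq 0).add ((hq 1).mul continuousOn_const)
    · exact ((hq 2).sub ((hq 3).mul continuousOn_const)).neg
    · exact (hq 2).add ((hq 3).mul continuousOn_const)
    · exact (hq 0).sub ((hq 1).mul continuousOn_const)
  exact continuousOn_pi.2 fun i => continuousOn_pi.2 fun j => h i j

theorem su_cont : ContinuousOn su {w | w ≠ 0} := by
  rw [Topology.IsInducing.subtypeVal.continuousOn_iff]
  exact mt_cont.congr fun w hw => su_val hw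

/-- three real coordinates -/
def cp (r : ℕ) (A : SU2) : ℝ :=
  if r = 0 then ((A : Matrix (Fin 2) (Fin 2) ℂ) 0 0).im
  else if r = 1 then ((A : Matrix (Fin 2) (Fin 2) ℂ) 1 0).re
  else ((A : Matrix (Fin 2) (Fin 2) ℂ) 1 0).im

theorem cp_cont (r : ℕ) : Continuous (cp r) := by
  have h : ∀ i j : Fin 2, Continuous (fun A : SU2 => (A : Matrix (Fin 2) (Fin 2) ℂ) i j) := by
    intro i j
    exact (continuous_apply_apply i j).comp continuous_subtype_val
  unfold cp
  split_ifs
  · exact Complex.continuous_im.comp (h 0 0)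
  · exact Complex.continuous_re.comp (h 1 0)
  · exact Complex.continuous_im.comp (h 1 0)

theorem cp_neg {z : SU2} (hz : (z : Matrix (Fin 2) (Fin 2) ℂ) = -1) (r : ℕ) (A : SU2) :
    cp r (z * A) = -cp r A := by
  have h : ((z * A : SU2) : Matrix (Fin 2) (Fin 2) ℂ) = -(A : Matrix (Fin 2) (Fin 2) ℂ) := by
    show (z : Matrix (Fin 2) (Fin 2) ℂ) * (A : Matrix (Fin 2) (Fin 2) ℂ) = _
    rw [hz, neg_mul, one_mul]
  unfold cp
  rw [h]
  split_ifs <;> simp

theorem cp_zero {z : SU2} (hz : (z : Matrix (Fin 2) (Fin 2) ℂ) = -1) (A : SU2) (h0 : cp 0 A = 0)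
    (h1 : cp 1 A = 0) (h2 : cp 2 A = 0) : A = 1 ∨ A = z := by
  obtain ⟨M, hM⟩ := A
  rw [Matrix.mem_specialUnitaryGroup_iff] at hM
  obtain ⟨hU, hD⟩ := hM
  have c0 : (M 0 0).im = 0 := h0
  have c1 : M 1 0 = 0 := Complex.ext h1 h2
  have hU' := Matrix.mem_unitaryGroup_iff'.1 hU
  have u00 := congrFun (congrFun hU' 0) 0
  have u01 := congrFun (congrFun hU' 0) 1
  rw [Matrix.mul_apply, Fin.sum_univ_two, Matrix.star_apply, Matrix.star_apply, c1] at u00 u01
  rw [Matrix.one_apply_eq] at u00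
  rw [Matrix.one_apply_ne (by decide)] at u01
  rw [Matrix.det_fin_two, c1] at hD
  have hreal : M 0 0 = (((M 0 0).re : ℝ) : ℂ) := by
    apply Complex.ext
    · simp
    · simpa using c0
  have hs : star (M 0 0) = M 0 0 := by
    rw [hreal]
    exact Complex.conj_ofReal _
  rw [hs, star_zero, zero_mul, add_zero] at u00 u01
  have hne : M 0 0 ≠ 0 := by
    intro h
    rw [h] at u00
    simp at u00
  have c2 : M 0 1 = 0 := (mul_eq_zero.1 u01).resolve_left hne
  have hpm : M 0 0 = 1 ∨ M 0 0 = -1 := mul_self_eq_one_iff.1 u00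
  have c3 : M 1 1 = M 0 0 := by
    rw [mul_zero, sub_zero] at hD
    exact mul_left_cancel₀ hne (hD.trans u00.symm)
  rcases hpm with h | h
  · left
    apply Subtype.ext
    show M = 1
    ext i j
    fin_cases i <;> fin_cases j
    · simpa using h
    · simpa using c2
    · simpa using c1
    · show M 1 1 = _
      rw [c3, h]
      simp
  · right
    apply Subtype.ext
    rw [hz]
    show M = -1
    ext i j
    fin_cases i <;> fin_cases j
    · simpa using h
    · simpa using c2
    · simpa using c1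
    · show M 1 1 = _
      rw [c3, h]
      simp

theorem flip_set {M : ℕ} {z : SU2} (F : Fin M → (Fin M → SU2) → SU2)
    (hF : ∀ i k y, F i (Function.update y k (z * y k)) = if i = k then z * F i y else F i y)
    (y : Fin M → SU2) (S : Finset (Fin M)) (i : Fin M) :
    F i (fun k => if k ∈ S then z * y k else y k) = if i ∈ S then z * F i y else F i y := by
  induction S using Finset.induction_on with
  | empty => simp
  | insert k S hk ih =>
    have h1 : (fun j => if j ∈ insert k S then z * y j else y j) =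
        Function.update (fun j => if j ∈ S then z * y j else y j) k
          (z * (fun j => if j ∈ S then z * y j else y j) k) := by
      funext j
      by_cases hj : j = k
      · subst hj
        rw [Function.update_self]
        simp [hk]
      · rw [Function.update_of_ne hj]
        simp [hj]
    rw [h1, hF, ih]
    by_cases hi : i = k
    · subst hi
      simp [hk]
    · simp [hi]

open Classical in
/-- Module BU -/
theorem t_BU : S_BU := by
  intro z hz M F hFc hF
  have hz2 : z * z = 1 := by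
    apply Subtype.ext
    show (z : Matrix (Fin 2) (Fin 2) ℂ) * (z : Matrix (Fin 2) (Fin 2) ℂ) = 1
    rw [hz, neg_mul, one_mul, neg_neg]
  let n : ℕ → ℕ := fun _ => 3
  let Y : Om n → Fin M → SU2 := fun v j => su (v j)
  have hne : ∀ v ∈ PP n, ∀ i, v i ≠ 0 := by
    intro v hv i h0
    have h1 : v i ∈ K 3 := hv i
    rw [h0] at h1
    have h2 : ∑ j : Fin (3 + 1), |(0 : Fin (3 + 1) → ℝ) j| = 1 := h1
    simp at h2
  have hY : ContinuousOn Y (PP n) := by
    rw [continuousOn_pi]
    intro j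
    exact su_cont.comp (continuous_apply (j : ℕ)).continuousOn fun v hv => hne v hv j
  let f : ℕ → ℕ → Om n → ℝ := fun i r v => if h : i < M then cp r (F ⟨i, h⟩ (Y v)) else 0
  have hf : ∀ i r, ContinuousOn (f i r) (PP n) := by
    intro i r
    by_cases h : i < M
    · have e : f i r = fun v => cp r (F ⟨i, h⟩ (Y v)) := by
        funext v
        simp only [f, dif_pos h]
      rw [e]
      exact (cp_cont r).comp_continuousOn ((hFc ⟨i, h⟩).comp_continuousOn hY)
    · have e : f i r = fun _ => 0 := by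
        funext v
        simp only [f, dif_neg h]
      rw [e]
      exact continuousOn_const
  obtain ⟨v, hv, hv0⟩ := triangular n (fun _ => by norm_num) M
    (fun i _ k => if k = i then 1 else 0) (fun i r => if_pos rfl)
    (fun i r k hk => if_neg (by omega)) f hf (by
      intro i hi r _ k hk v hv
      have hYf : Y (flp n k v) = Function.update (Y v) ⟨k, hk⟩ (z * Y v ⟨k, hk⟩) := by
        funext j
        by_cases hj : j = ⟨k, hk⟩
        · subst hj
          rw [Function.update_self]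
          show su (Function.update v k (-(v k)) k) = z * su (v k)
          rw [Function.update_self]
          exact su_neg hz (hne v hv k)
        · rw [Function.update_of_ne hj]
          show su (Function.update v k (-(v k)) (j : ℕ)) = su (v j)
          rw [Function.update_of_ne (fun h => hj (Fin.ext h))]
      simp only [f, dif_pos hi]
      rw [hYf, hF]
      by_cases h : k = i
      · subst h
        rw [if_pos rfl, if_pos rfl, cp_neg hz]
        unfold sgn
        rw [if_neg (by decide)]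
        ring
      · rw [if_neg (fun e => h (congrArg Fin.val e).symm), if_neg h]
        unfold sgn
        rw [if_pos rfl]
        ring)
  have hval : ∀ i : Fin M, F i (Y v) = 1 ∨ F i (Y v) = z := by
    intro i
    have h : ∀ r < 3, cp r (F i (Y v)) = 0 := by
      intro r hr
      have h1 := hv0 i i.2 r hr
      simp only [f, dif_pos i.2] at h1
      exact h1
    exact cp_zero hz _ (h 0 (by norm_num)) (h 1 (by norm_num)) (h 2 (by norm_num))
  refine ⟨fun k => if k ∈ univ.filter (fun k => F k (Y v) = z) then z * Y v k else Y v k, ?_⟩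
  intro i
  rw [flip_set F hF]
  by_cases hi : F i (Y v) = z
  · rw [if_pos (by simp [hi]), hi, hz2]
  · rw [if_neg (by simp [hi])]
    exact (hval i).resolve_right hi

end Pool.Agent.L0h83.LC
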