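import Pool.Agent.L0h44.LC.Stm
import Pool.Agent.Y364.NL.Abs

/-!
# Project LC, module TRV: locally constructible complexes are simply connected (labellings)
-/

set_option autoImplicit false

namespace Pool.Agent.L0h83.LC

open Finset Pool.Agent.H933R3 Pool.Agent.L0h44.LC

variable {V : Type} [DecidableEq V] {K : Finset (Finset V)} {H : Type} [Group H]
  {ρ : V → V → H}

theorem flat_on (hK : IsCx K) (hρ : Flat K ρ) {F : Finset V} (hF : F ∈ K) {u v w : V}
    (hu : u ∈ F) (hv : v ∈ F) (hw : w ∈ F) : ρ u v * ρ v w = ρ u w := by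
  apply hρ
  apply hK.2 F hF
  intro x hx
  rw [mem_insert, mem_insert, mem_singleton] at hx
  rcases hx with rfl | rfl | rfl <;> assumption

omit [DecidableEq V] in
theorem facet_above {σ : Finset V} (h : σ ∈ K) : ∃ F, IsFacet K F ∧ σ ⊆ F := by
  obtain ⟨m, hm, hmax⟩ := K.exists_le_maximal h
  refine ⟨m, ⟨hmax.prop, fun G hG hle => ?_⟩, hm⟩
  exact (Subset.antisymm hle (hmax.2 hG hle)).symm

/-- potentials on the facets of a stage -/
def Pot (ρ : V → V → H) (𝓕 G : Finset (Finset V)) (g : Finset V → V → H) : Prop :=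
  (∀ F ∈ 𝓕, ∀ u ∈ F, ∀ v ∈ F, ρ u v = (g F u)⁻¹ * g F v) ∧
  ∀ R ∈ G, ∀ X ∈ 𝓕, ∀ Y ∈ 𝓕, R ⊆ X → R ⊆ Y → ∀ u ∈ R, g X u = g Y u

omit [DecidableEq V] in
theorem pot_same {𝓕 G : Finset (Finset V)} {g : Finset V → V → H} (hg : Pot ρ 𝓕 G g)
    {A F F' : Finset V} (h : SameFace 𝓕 G A F F') {u : V} (hu : u ∈ A) : g F u = g F' u := by
  induction h with
  | refl => rfl
  | tail _ hs ih =>
    obtain ⟨hX, hY, R, hR, hAR, h1, h2⟩ := hs
    rw [ih]
    exact hg.2 R hR _ hX _ hY h1 h2 u (hAR hu)

theorem stage_pot (hK : IsCx K) (h2 : AtMostTwo 4 K) (hρ : Flat K ρ) {𝓕 G : Finset (Finset V)}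
    (h : LCStage 4 K 𝓕 G) : ∃ g, Pot ρ 𝓕 G g := by
  induction h with
  | start F hF =>
    by_cases hne : F.Nonempty
    · obtain ⟨v0, hv0⟩ := hne
      refine ⟨fun _ u => ρ v0 u, fun F' hF' u hu v hv => ?_, fun R hR => absurd hR (notMem_empty R)⟩
      rw [mem_singleton] at hF'
      subst hF'
      rw [eq_inv_mul_iff_mul_eq]
      exact flat_on hK hρ hF.1 hv0 hu hv
    · rw [not_nonempty_iff_eq_empty] at hne
      subst hne
      refine ⟨fun _ _ => 1, fun F' hF' u hu => ?_, fun R hR => absurd hR (notMem_empty R)⟩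
      rw [mem_singleton] at hF'
      subst hF'
      exact absurd hu (notMem_empty u)
  | attach 𝓕 G F F' R h hF hF' hn hR h1 h3 hG ih =>
    obtain ⟨g, hg⟩ := ih
    obtain ⟨hb, hbG, -⟩ := Pool.Agent.Y364.NL.stage_basic h
    obtain ⟨w, hw⟩ : R.Nonempty := by
      rw [← card_pos, hR]
      norm_num
    have hne : ∀ X ∈ 𝓕, X ≠ F' := fun X hX e => hn (e ▸ hX)
    have hold : ∀ X ∈ 𝓕, Function.update g F' (fun u => g F w * ρ w u) X = g X := fun X hX =>
      Function.update_of_ne (hne X hX) _ _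
    have hnew : Function.update g F' (fun u => g F w * ρ w u) F' = fun u => g F w * ρ w u :=
      Function.update_self _ _ _
    have key : ∀ R' ∈ insert R G, ∀ Y ∈ 𝓕, R' ⊆ F' → R' ⊆ Y → ∀ u ∈ R',
        g F w * ρ w u = g Y u := by
      intro R' hR' Y hY hRF hRY u hu
      rcases mem_insert.1 hR' with rfl | hR'
      · have hYF : Y = F := by
          rcases h2 R' hR Y F F' (hb Y hY) (hb F hF) hF' hRY h1 h3 with e | e | e
          · exact e
          · exact absurd e (hne Y hY)
          · exact absurd e (hne F hF)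
        subst hYF
        rw [hg.1 Y hY w (h1 hw) u (h1 hu), mul_inv_cancel_left]
      · exfalso
        obtain ⟨hc, X', hX', Y', hY', hXY, h4, h5⟩ := hbG R' hR'
        rcases h2 R' hc F' X' Y' hF' (hb X' hX') (hb Y' hY') hRF h4 h5 with e | e | e
        · exact hne X' hX' e.symm
        · exact hne Y' hY' e.symm
        · exact hXY e
    refine ⟨Function.update g F' (fun u => g F w * ρ w u), ?_, ?_⟩
    · intro X hX u hu v hv
      rcases mem_insert.1 hX with rfl | hX
      · rw [hnew]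
        have e1 := flat_on hK hρ hF'.1 (h3 hw) hu hv
        rw [eq_inv_mul_iff_mul_eq, mul_assoc, e1]
      · rw [hold X hX]
        exact hg.1 X hX u hu v hv
    · intro R' hR' X hX0 Y hY0 hRX hRY u hu
      rcases mem_insert.1 hX0 with eX | hX
      · rcases mem_insert.1 hY0 with eY | hY
        · rw [eX, eY]
        · rw [eX] at hRX ⊢
          rw [hnew, hold Y hY]
          exact key R' hR' Y hY hRX hRY u hu
      · rcases mem_insert.1 hY0 with eY | hY
        · rw [eY] at hRY ⊢
          rw [hnew, hold X hX]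
          exact (key R' hR' X hX hRY hRX u hu).symm
        · rw [hold X hX, hold Y hY]
          rcases mem_insert.1 hR' with eR | hR'
          · rw [eR] at hRX hRY
            have hXY : X = Y := by
              rcases h2 R hR X Y F' (hb X hX) (hb Y hY) hF' hRX hRY h3 with e | e | e
              · exact e
              · exact absurd e (hne X hX)
              · exact absurd e (hne Y hY)
            rw [hXY]
          · exact hg.2 R' hR' X hX Y hY hRX hRY u hu
  | glue 𝓕 G F F' R A h hF hF' hne hR h1 h3 hG hA hAR hs ih =>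
    obtain ⟨g, hg⟩ := ih
    obtain ⟨hb, hbG, -⟩ := Pool.Agent.Y364.NL.stage_basic h
    obtain ⟨a, ha⟩ : A.Nonempty := by
      rw [← card_pos]
      omega
    have hFF : ∀ u ∈ R, g F u = g F' u := by
      intro u hu
      have e1 := hg.1 F hF a (h1 (hAR ha)) u (h1 hu)
      have e2 := hg.1 F' hF' a (h3 (hAR ha)) u (h3 hu)
      rw [← pot_same hg hs ha] at e2
      rw [e1] at e2
      exact mul_left_cancel e2
    refine ⟨g, hg.1, ?_⟩
    intro R' hR' X hX Y hY hRX hRY u hu
    rcases mem_insert.1 hR' with rfl | hR'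
    · have hXc : X = F ∨ X = F' := by
        rcases h2 R' hR X F F' (hb X hX) (hb F hF) (hb F' hF') hRX h1 h3 with e | e | e
        · exact Or.inl e
        · exact Or.inr e
        · exact absurd e hne
      have hYc : Y = F ∨ Y = F' := by
        rcases h2 R' hR Y F F' (hb Y hY) (hb F hF) (hb F' hF') hRY h1 h3 with e | e | e
        · exact Or.inl e
        · exact Or.inr e
        · exact absurd e hne
      rcases hXc with rfl | rfl <;> rcases hYc with rfl | rfl
      · rfl
      · exact hFF u hu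
      · exact (hFF u hu).symm
      · rfl
    · exact hg.2 R' hR' X hX Y hY hRX hRY u hu

open Classical in
/-- Module TRV -/
theorem t_TRV : S_TRV := by
  intro V _ K H _ ρ hK hLC hρ
  obtain ⟨-, h2, 𝓕, G, hst, hall, hsame⟩ := hLC
  obtain ⟨g, hg⟩ := stage_pot hK h2 hρ hst
  refine ⟨fun v => if h : ∃ F ∈ 𝓕, v ∈ F then g h.choose v else 1, ?_⟩
  intro u v huv
  obtain ⟨F, hF, hsub⟩ := facet_above huv
  have hF𝓕 := hall F hF
  have key : ∀ x ∈ F, (if h : ∃ F ∈ 𝓕, x ∈ F then g h.choose x else 1) = g F x := by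
    intro x hx
    have hex : ∃ F ∈ 𝓕, x ∈ F := ⟨F, hF𝓕, hx⟩
    rw [dif_pos hex]
    have hsp := hex.choose_spec
    have hxK : ({x} : Finset V) ∈ K := hK.2 F hF.1 _ (singleton_subset_iff.2 hx)
    exact pot_same hg (hsame {x} hxK _ hsp.1 F hF𝓕 (singleton_subset_iff.2 hsp.2)
      (singleton_subset_iff.2 hx)) (mem_singleton_self x)
  have hu : u ∈ F := hsub (mem_insert_self _ _)
  have hv : v ∈ F := hsub (mem_insert_of_mem (mem_singleton_self _))
  rw [hg.1 F hF𝓕 u hu v hv]
  show _ = (if h : ∃ F ∈ 𝓕, u ∈ F then g h.choose u else 1)⁻¹ *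
    (if h : ∃ F ∈ 𝓕, v ∈ F then g h.choose v else 1)
  rw [key u hu, key v hv]

end Pool.Agent.L0h83.LC
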